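import Mathlib
import Pool.Agent.TH26.Cub.Strong

/-!
# Cubic polynomials suffice for Denef's question on the poles of Igusa's Poincaré series

For every non-constant `f ∈ ℤ[x_1, …, x_n]` there are `N ≥ 1` and polynomials `q_1, …, q_k` of degree
at most two all of whose coefficients are `0`, `1` or `-1` such that the cubic `g = ∑_j t_j q_j(x)` is
not constant and, for EVERY prime `p`,

`(1 - T / p) P_{g,p}(T) = 1 / p + (1 - 1 / p) P_{f,p}(p ^ (-N) T)`.

Moreover `(s + 1) b(s + N)` satisfies a functional equation for `g` whenever `b(s)` does for `f`. Hence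
a positive answer for `g` and `p` implies one for `f` and `p`, also with the orders of the poles; so a
positive answer for the cubics `∑_j t_j q_j(x)` implies one for all `f`, and a counterexample, if there
is one, exists among these cubics.

Method. Start with `u f`, and add the product of two new variables again and again. If
`h = h' + x_i x_j a`, the triangular automorphism `y ↦ y - x_i x_j`, `t ↦ t + a` turns `h + y t` into
`h' + y t - x_i x_j t + a y`, which lowers the degrees. The functional equations and the numbers of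
solutions of the congruences `g ≡ 0 mod p ^ k` are followed along these moves.
-/

set_option autoImplicit false

namespace Pool.Agent.Results.MP_5d9b3c_ag.CubicPolynomialsPoincare

open Pool.Agent.W206.CU (poincare IsPoleOfOrder quadSum)
open Pool.Agent.H628R4.TP (IsBFunction)

/-- The conclusion of the question for the polynomial `f` and the prime `p`: for every pole `T₀` of
Igusa's Poincaré series, `t₀ = - log |T₀| / log p` is a root of every `b` with
`b(s) f ^ s = P(s) f ^ (s + 1)`, hence of the Bernstein-Sato polynomial. -/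
def PolesAreRoots (p : ℕ) {V : Type} (f : MvPolynomial V ℤ) : Prop :=
  ∀ (T₀ : ℂ) (μ : ℕ), 0 < μ → IsPoleOfOrder (poincare p f) T₀ μ → ∀ b : Polynomial ℂ,
    IsBFunction (MvPolynomial.map (Int.castRingHom ℂ) f) b →
    b.eval ((-Real.log ‖T₀‖ / Real.log p : ℝ) : ℂ) = 0

/-- The same with orders: the order of the pole is at most the multiplicity of the root. -/
def PoleOrdersBounded (p : ℕ) {V : Type} (f : MvPolynomial V ℤ) : Prop :=
  ∀ (T₀ : ℂ) (μ : ℕ), 0 < μ → IsPoleOfOrder (poincare p f) T₀ μ → ∀ b : Polynomial ℂ, b ≠ 0 →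
    IsBFunction (MvPolynomial.map (Int.castRingHom ℂ) f) b →
    μ ≤ b.rootMultiplicity ((-Real.log ‖T₀‖ / Real.log p : ℝ) : ℂ)

/-- The `q_j` have degree at most two and coefficients `0`, `1`, `-1`. -/
def UnitQuadrics {n k : ℕ} (q : Fin k → MvPolynomial (Fin n) ℤ) : Prop :=
  (∀ j, (q j).totalDegree ≤ 2) ∧ ∀ j d, (q j).coeff d = 0 ∨ (q j).coeff d = 1 ∨ (q j).coeff d = -1

/-- **Cubic polynomials suffice for Denef's question on the poles of Igusa's Poincaré series.**

`quadSum q` is `∑_j t_j q_j(x)` and `poincare p f = ∑_m a_m (p ^ (-n) T) ^ m`, `a_m` the number of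
zeros of `f` modulo `p ^ m`. First part: for every non-constant `f` and `M` there are `N ≥ 1`, `N ≥ M`
and `q` as in `UnitQuadrics`, independent of the prime, with (i) the functional equation of the
Poincaré series for every prime `p`, (ii) the transfer of functional equations from `f` to
`quadSum q`, (iii) for every prime `p`, the conclusion for `quadSum q` at `p` implies the one for `f`
at `p`, without and with orders. Second part: if the answer is positive for all non-constant
`quadSum q` with `q` as in `UnitQuadrics`, then it is positive for all non-constant polynomials. -/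
theorem result :
    (∀ (n : ℕ) (f : MvPolynomial (Fin n) ℤ), (∀ c : ℤ, f ≠ MvPolynomial.C c) → ∀ M : ℕ,
      ∃ (N m k : ℕ) (q : Fin k → MvPolynomial (Fin m) ℤ), M ≤ N ∧ 1 ≤ N ∧ UnitQuadrics q ∧
        (∀ c : ℤ, quadSum q ≠ MvPolynomial.C c) ∧
        (∀ (p : ℕ) [Fact p.Prime],
          (1 - PowerSeries.C ((p : ℂ)⁻¹) * PowerSeries.X) * poincare p (quadSum q) =
            PowerSeries.C ((p : ℂ)⁻¹) + PowerSeries.C (1 - (p : ℂ)⁻¹) *
              PowerSeries.rescale (((p : ℂ)⁻¹) ^ N) (poincare p f)) ∧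
        (∀ b : Polynomial ℂ, IsBFunction (MvPolynomial.map (Int.castRingHom ℂ) f) b →
          IsBFunction (MvPolynomial.map (Int.castRingHom ℂ) (quadSum q))
            ((Polynomial.X + 1) * b.comp (Polynomial.X + Polynomial.C (N : ℂ)))) ∧
        (∀ p : ℕ, p.Prime → PolesAreRoots p (quadSum q) → PolesAreRoots p f) ∧
        (∀ p : ℕ, p.Prime → PoleOrdersBounded p (quadSum q) → PoleOrdersBounded p f)) ∧
    ((∀ (m k : ℕ) (q : Fin k → MvPolynomial (Fin m) ℤ), UnitQuadrics q →
        (∀ c : ℤ, quadSum q ≠ MvPolynomial.C c) →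
        ∀ p : ℕ, p.Prime → PolesAreRoots p (quadSum q)) →
      ∀ (n : ℕ) (f : MvPolynomial (Fin n) ℤ), (∀ c : ℤ, f ≠ MvPolynomial.C c) →
        ∀ p : ℕ, p.Prime → PolesAreRoots p f) := by
  have h1 : ∀ (n : ℕ) (f : MvPolynomial (Fin n) ℤ), (∀ c : ℤ, f ≠ MvPolynomial.C c) → ∀ M : ℕ,
      ∃ (N m k : ℕ) (q : Fin k → MvPolynomial (Fin m) ℤ), M ≤ N ∧ 1 ≤ N ∧ UnitQuadrics q ∧
        (∀ c : ℤ, quadSum q ≠ MvPolynomial.C c) ∧
        (∀ (p : ℕ) [Fact p.Prime],
          (1 - PowerSeries.C ((p : ℂ)⁻¹) * PowerSeries.X) * poincare p (quadSum q) =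
            PowerSeries.C ((p : ℂ)⁻¹) + PowerSeries.C (1 - (p : ℂ)⁻¹) *
              PowerSeries.rescale (((p : ℂ)⁻¹) ^ N) (poincare p f)) ∧
        (∀ b : Polynomial ℂ, IsBFunction (MvPolynomial.map (Int.castRingHom ℂ) f) b →
          IsBFunction (MvPolynomial.map (Int.castRingHom ℂ) (quadSum q))
            ((Polynomial.X + 1) * b.comp (Polynomial.X + Polynomial.C (N : ℂ)))) ∧
        (∀ p : ℕ, p.Prime → PolesAreRoots p (quadSum q) → PolesAreRoots p f) ∧
        (∀ p : ℕ, p.Prime → PoleOrdersBounded p (quadSum q) → PoleOrdersBounded p f) := by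
    intro n f hf M
    have hf0 : f ≠ 0 := fun h => hf 0 (by rw [h, map_zero])
    obtain ⟨m, k, N, q, hN, hq, hco, hF⟩ := Pool.Agent.W206.CU.exists_follow f hf0 (max M 1)
    have hN1 : 1 ≤ N := (le_max_right _ _).trans hN
    refine ⟨N, m, k, q, (le_max_left _ _).trans hN, hN1, ⟨hq, hco⟩, hF.2.2, ?_,
      fun b hb => Pool.Agent.TH26.Cub.b_of_follow hF b hb, ?_, ?_⟩
    · intro p _
      have h2 := Pool.Agent.W206.CU.poincare_eq hF p
      simpa using h2
    · intro p hp h
      have : Fact p.Prime := ⟨hp⟩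
      exact Pool.Agent.TH26.Cub.PC1_of_follow p hF hN1 hf0 h
    · intro p hp h
      have : Fact p.Prime := ⟨hp⟩
      exact Pool.Agent.TH26.Cub.PC2_of_follow p hF hN1 hf0 h
  refine ⟨h1, fun hyp n f hf p hp => ?_⟩
  obtain ⟨N, m, k, q, _, _, hq, hq0, _, _, h5, _⟩ := h1 n f hf 1
  exact h5 p hp (hyp m k q hq hq0 p hp)

end Pool.Agent.Results.MP_5d9b3c_ag.CubicPolynomialsPoincare
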